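import Mathlib

/-!
Explicit Hilbert symbols of nonzero integers with values in `ZMod 2`.
-/

set_option autoImplicit false

namespace Pool.Agent.HM4

/-- The part of `a` prime to `p`. -/
def up (p : ℕ) (a : ℤ) : ℤ := a / (p : ℤ) ^ padicValInt p a

/-- Square classes of `ℚ_p`: for odd `p` the pair (valuation, residue character), third entry `0`;
for `p = 2` the triple (valuation, unit part mod 4, unit part mod 8). -/
abbrev Cl := ZMod 2 × ZMod 2 × ZMod 2

open Classical in
/-- The square class of `a` at `p`. -/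
noncomputable def cl (p : ℕ) (a : ℤ) : Cl :=
  if p = 2 then
    ((padicValInt 2 a : ZMod 2), (if up 2 a % 4 = 1 then 0 else 1),
      (if up 2 a % 8 = 1 ∨ up 2 a % 8 = 7 then 0 else 1))
  else
    ((padicValInt p a : ZMod 2), (if IsSquare ((up p a : ℤ) : ZMod p) then 0 else 1), 0)

/-- The bilinear form of the Hilbert symbol on square classes. -/
def bf (p : ℕ) (x y : Cl) : ZMod 2 :=
  if p = 2 then x.2.1 * y.2.1 + x.1 * y.2.2 + x.2.2 * y.1
  else x.1 * y.2.1 + x.2.1 * y.1 + (((p - 1) / 2 : ℕ) : ZMod 2) * (x.1 * y.1)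

/-- The Hilbert symbol (additively written). -/
noncomputable def hs (p : ℕ) (a b : ℤ) : ZMod 2 := bf p (cl p a) (cl p b)

/-- Nontrivial rational solutions of `x^2 = A y^2 + B z^2`. -/
def Sol (A B : ℤ) : Prop :=
  ∃ x y z : ℚ, (x ≠ 0 ∨ y ≠ 0 ∨ z ≠ 0) ∧ x ^ 2 = A * y ^ 2 + B * z ^ 2

theorem bf_add_left (p : ℕ) (x x' y : Cl) : bf p (x + x') y = bf p x y + bf p x' y := by
  unfold bf; split_ifs <;> simp only [Prod.fst_add, Prod.snd_add] <;> ring

theorem bf_add_right (p : ℕ) (x y y' : Cl) : bf p x (y + y') = bf p x y + bf p x y' := by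
  unfold bf; split_ifs <;> simp only [Prod.fst_add, Prod.snd_add] <;> ring

theorem bf_comm (p : ℕ) (x y : Cl) : bf p x y = bf p y x := by
  unfold bf; split_ifs <;> ring

theorem bf_zero_left (p : ℕ) (y : Cl) : bf p 0 y = 0 := by
  unfold bf; split_ifs <;> simp

theorem bf_zero_right (p : ℕ) (x : Cl) : bf p x 0 = 0 := by
  rw [bf_comm, bf_zero_left]

theorem hs_comm (p : ℕ) (a b : ℤ) : hs p a b = hs p b a := bf_comm _ _ _

theorem cl_snd_snd {p : ℕ} (hp : p ≠ 2) (a : ℤ) : (cl p a).2.2 = 0 := by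
  unfold cl; rw [if_neg hp]

end Pool.Agent.HM4
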