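import Mathlib
import Pool.Agent.Lib.HM4.Defs

/-!
The unit part of an integer at a prime.
-/

set_option autoImplicit false

namespace Pool.Agent.HM4

variable {p : ℕ} {a b : ℤ}

theorem pow_mul_up (hp : p.Prime) (ha : a ≠ 0) : (p : ℤ) ^ padicValInt p a * up p a = a := by
  exact Int.mul_ediv_cancel' (padicValInt_dvd a)

theorem not_dvd_up (hp : p.Prime) (ha : a ≠ 0) : ¬ (p : ℤ) ∣ up p a := by
  intro h
  have : Fact p.Prime := ⟨hp⟩
  have h1 : (p : ℤ) ^ (padicValInt p a + 1) ∣ a := by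
    conv_rhs => rw [← pow_mul_up hp ha]
    rw [pow_succ]
    exact mul_dvd_mul_left _ h
  rcases (padicValInt_dvd_iff _ a).mp h1 with h2 | h2
  · exact ha h2
  · omega

theorem padicValInt_pow_mul (hp : p.Prime) (k : ℕ) (hb : ¬ (p : ℤ) ∣ b) :
    padicValInt p ((p : ℤ) ^ k * b) = k := by
  have : Fact p.Prime := ⟨hp⟩
  have hb0 : b ≠ 0 := fun h => hb (h ▸ dvd_zero _)
  have hp0 : ((p : ℤ) ^ k) ≠ 0 := pow_ne_zero k (Int.natCast_ne_zero.mpr hp.ne_zero)
  rw [padicValInt.mul hp0 hb0, padicValInt.eq_zero_of_not_dvd hb, add_zero, ← Nat.cast_pow,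
    padicValInt.of_nat, padicValNat.prime_pow]

theorem up_pow_mul (hp : p.Prime) (k : ℕ) (hb : ¬ (p : ℤ) ∣ b) :
    up p ((p : ℤ) ^ k * b) = b := by
  have hp0 : ((p : ℤ) ^ k) ≠ 0 := pow_ne_zero k (Int.natCast_ne_zero.mpr hp.ne_zero)
  unfold up
  rw [padicValInt_pow_mul hp k hb, Int.mul_ediv_cancel_left _ hp0]

theorem padicValInt_of_not_dvd (hp : p.Prime) (ha : ¬ (p : ℤ) ∣ a) : padicValInt p a = 0 := by
  exact padicValInt.eq_zero_of_not_dvd ha

theorem up_of_not_dvd (hp : p.Prime) (ha : ¬ (p : ℤ) ∣ a) : up p a = a := by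
  have h := up_pow_mul hp 0 ha
  rwa [pow_zero, one_mul] at h

theorem padicValInt_mul' (hp : p.Prime) (ha : a ≠ 0) (hb : b ≠ 0) :
    padicValInt p (a * b) = padicValInt p a + padicValInt p b := by
  have : Fact p.Prime := ⟨hp⟩
  exact padicValInt.mul ha hb

theorem up_mul (hp : p.Prime) (ha : a ≠ 0) (hb : b ≠ 0) : up p (a * b) = up p a * up p b := by
  have h1 := pow_mul_up hp ha
  have h2 := pow_mul_up hp hb
  have h3 : ¬ (p : ℤ) ∣ up p a * up p b := by
    intro h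
    rcases (Nat.prime_iff_prime_int.mp hp).dvd_or_dvd h with h4 | h4
    · exact not_dvd_up hp ha h4
    · exact not_dvd_up hp hb h4
  have h4 : a * b = (p : ℤ) ^ (padicValInt p a + padicValInt p b) * (up p a * up p b) := by
    calc a * b = ((p : ℤ) ^ padicValInt p a * up p a) * ((p : ℤ) ^ padicValInt p b * up p b) := by
          rw [h1, h2]
      _ = _ := by ring
  rw [h4, up_pow_mul hp _ h3]

end Pool.Agent.HM4
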