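import Mathlib
import Pool.Agent.Lib.HM4.Up

/-!
The square class map is a homomorphism; its values on units and on the prime.
-/

set_option autoImplicit false

namespace Pool.Agent.HM4

variable {p : ℕ} {a b c : ℤ}

private theorem chi_mul {p : ℕ} [Fact p.Prime] {x y : ZMod p} (hx : x ≠ 0)
    (hy : y ≠ 0) : IsSquare (x * y) ↔ (IsSquare x ↔ IsSquare y) := by
  classical
  have hxy : x * y ≠ 0 := mul_ne_zero hx hy
  rw [← quadraticChar_one_iff_isSquare hx, ← quadraticChar_one_iff_isSquare hy,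
    ← quadraticChar_one_iff_isSquare hxy, map_mul]
  rcases quadraticChar_dichotomy hx with h1 | h1 <;> rcases quadraticChar_dichotomy hy with h3 | h3
    <;> rw [h1, h3] <;> norm_num

private theorem ite_add {P Q R : Prop} [Decidable P] [Decidable Q] [Decidable R]
    (h : R ↔ (P ↔ Q)) : (if R then (0 : ZMod 2) else 1) =
      (if P then 0 else 1) + (if Q then 0 else 1) := by
  by_cases hP : P <;> by_cases hQ : Q <;> by_cases hR : R <;> simp [hP, hQ, hR] at h ⊢
  decide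

private theorem odd_of_not_dvd {x : ℤ} (h : ¬ ((2 : ℕ) : ℤ) ∣ x) : x % 2 = 1 := by
  have h' : ¬ (2 : ℤ) ∣ x := h
  omega

private theorem odd_four {x y : ℤ} (hx : x % 2 = 1) (hy : y % 2 = 1) :
    (x * y) % 4 = 1 ↔ (x % 4 = 1 ↔ y % 4 = 1) := by
  have h := Int.mul_emod x y 4
  rcases (by omega : x % 4 = 1 ∨ x % 4 = 3) with h1 | h1 <;>
    rcases (by omega : y % 4 = 1 ∨ y % 4 = 3) with h3 | h3 <;>
    rw [h1, h3] at h <;> norm_num at h <;> rw [h, h1, h3] <;> norm_num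

private theorem odd_eight {x y : ℤ} (hx : x % 2 = 1) (hy : y % 2 = 1) :
    ((x * y) % 8 = 1 ∨ (x * y) % 8 = 7) ↔ ((x % 8 = 1 ∨ x % 8 = 7) ↔ (y % 8 = 1 ∨ y % 8 = 7)) := by
  have h := Int.mul_emod x y 8
  rcases (by omega : x % 8 = 1 ∨ x % 8 = 3 ∨ x % 8 = 5 ∨ x % 8 = 7) with h1 | h1 | h1 | h1 <;>
    rcases (by omega : y % 8 = 1 ∨ y % 8 = 3 ∨ y % 8 = 5 ∨ y % 8 = 7) with h3 | h3 | h3 | h3 <;>
    rw [h1, h3] at h <;> norm_num at h <;> rw [h, h1, h3] <;> norm_num

private theorem not_dvd_one (hp : p.Prime) : ¬ (p : ℤ) ∣ 1 := by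
  intro h
  have h1 : (p : ℤ) ∣ ((1 : ℕ) : ℤ) := by exact_mod_cast h
  have h2 := Int.natCast_dvd_natCast.1 h1
  exact hp.one_lt.ne' (Nat.dvd_one.1 h2)

open Classical in
theorem cl_of_not_dvd (hp : p.Prime) (h2 : p ≠ 2) (ha : ¬ (p : ℤ) ∣ a) :
    cl p a = (0, (if IsSquare ((a : ℤ) : ZMod p) then 0 else 1), 0) := by
  unfold cl
  rw [if_neg h2, padicValInt_of_not_dvd hp ha, up_of_not_dvd hp ha, Nat.cast_zero]

theorem cl_two_of_odd (ha : a % 2 = 1) :
    cl 2 a = (0, (if a % 4 = 1 then 0 else 1), (if a % 8 = 1 ∨ a % 8 = 7 then 0 else 1)) := by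
  have h : ¬ ((2 : ℕ) : ℤ) ∣ a := by
    intro h
    have h' : (2 : ℤ) ∣ a := h
    omega
  unfold cl
  rw [if_pos rfl, padicValInt_of_not_dvd Nat.prime_two h, up_of_not_dvd Nat.prime_two h,
    Nat.cast_zero]

theorem cl_self (hp : p.Prime) : cl p (p : ℤ) = (1, 0, 0) := by
  have e : (p : ℤ) = (p : ℤ) ^ 1 * 1 := by ring
  have h1 : padicValInt p (p : ℤ) = 1 := by
    conv_lhs => rw [e]
    exact padicValInt_pow_mul hp 1 (not_dvd_one hp)
  have h2 : up p (p : ℤ) = 1 := by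
    conv_lhs => rw [e]
    exact up_pow_mul hp 1 (not_dvd_one hp)
  by_cases hp2 : p = 2
  · subst hp2
    unfold cl
    rw [if_pos rfl, h1, h2]
    norm_num
  · unfold cl
    rw [if_neg hp2, h1, h2]
    norm_num

theorem cl_mul (hp : p.Prime) (ha : a ≠ 0) (hb : b ≠ 0) : cl p (a * b) = cl p a + cl p b := by
  have ea := not_dvd_up hp ha
  have eb := not_dvd_up hp hb
  by_cases hp2 : p = 2
  · subst hp2
    have oa := odd_of_not_dvd ea
    have ob := odd_of_not_dvd eb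
    unfold cl
    rw [if_pos rfl, if_pos rfl, if_pos rfl, padicValInt_mul' hp ha hb, up_mul hp ha hb,
      Nat.cast_add, ite_add (odd_four oa ob), ite_add (odd_eight oa ob)]
    rfl
  · have : Fact p.Prime := ⟨hp⟩
    have ha' : ((up p a : ℤ) : ZMod p) ≠ 0 := fun h =>
      ea ((ZMod.intCast_zmod_eq_zero_iff_dvd _ _).1 h)
    have hb' : ((up p b : ℤ) : ZMod p) ≠ 0 := fun h =>
      eb ((ZMod.intCast_zmod_eq_zero_iff_dvd _ _).1 h)
    have e := @ite_add _ _ _ (Classical.propDecidable _) (Classical.propDecidable _)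
      (Classical.propDecidable _) (chi_mul ha' hb')
    unfold cl
    rw [if_neg hp2, if_neg hp2, if_neg hp2, padicValInt_mul' hp ha hb, up_mul hp ha hb,
      Nat.cast_add, Int.cast_mul, e, Prod.mk_add_mk, Prod.mk_add_mk, add_zero]

theorem cl_one (hp : p.Prime) : cl p 1 = 0 := by
  by_cases hp2 : p = 2
  · subst hp2
    rw [cl_two_of_odd (by norm_num)]
    norm_num
  · rw [cl_of_not_dvd hp hp2 (not_dvd_one hp)]
    norm_num

theorem cl_two_neg_one : cl 2 (-1) = (0, 1, 0) := by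
  rw [cl_two_of_odd (by norm_num)]
  norm_num

theorem cl_neg_one (hp : p.Prime) (h2 : p ≠ 2) :
    cl p (-1) = (0, (((p - 1) / 2 : ℕ) : ZMod 2), 0) := by
  have : Fact p.Prime := ⟨hp⟩
  have h : ¬ (p : ℤ) ∣ -1 := by
    rw [dvd_neg]
    exact not_dvd_one hp
  rw [cl_of_not_dvd hp h2 h]
  have hodd : p % 2 = 1 := Nat.odd_iff.1 (hp.odd_of_ne_two h2)
  have h1 : (((-1 : ℤ)) : ZMod p) = -1 := by norm_num
  rw [h1]
  congr 2
  by_cases h3 : p % 4 = 3
  · have h4 : ¬ IsSquare (-1 : ZMod p) := fun h => (ZMod.exists_sq_eq_neg_one_iff.1 h) h3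
    rw [if_neg h4]
    have h5 : Odd ((p - 1) / 2) := by
      rw [Nat.odd_iff]
      omega
    exact ((ZMod.natCast_eq_one_iff_odd).2 h5).symm
  · have h4 : IsSquare (-1 : ZMod p) := ZMod.exists_sq_eq_neg_one_iff.2 h3
    rw [if_pos h4]
    have h5 : Even ((p - 1) / 2) := by
      rw [Nat.even_iff]
      omega
    exact ((ZMod.natCast_eq_zero_iff_even).2 h5).symm

theorem cl_mul_sq (hp : p.Prime) (ha : a ≠ 0) (hc : c ≠ 0) : cl p (a * c ^ 2) = cl p a := by
  have h : ∀ x : Cl, x + x = 0 := by decide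
  rw [cl_mul hp ha (pow_ne_zero 2 hc), pow_two, cl_mul hp hc hc, h, add_zero]

theorem cl_pow (hp : p.Prime) (ha : a ≠ 0) (n : ℕ) : cl p (a ^ n) = n • cl p a := by
  induction n with
  | zero => rw [pow_zero, cl_one hp, zero_smul]
  | succ n ih => rw [pow_succ, cl_mul hp (pow_ne_zero n ha) ha, ih, succ_nsmul]

theorem cl_prod (hp : p.Prime) {ι : Type*} (S : Finset ι) (f : ι → ℤ) (hf : ∀ i ∈ S, f i ≠ 0) :
    cl p (∏ i ∈ S, f i) = ∑ i ∈ S, cl p (f i) := by
  classical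
  induction S using Finset.induction_on with
  | empty => rw [Finset.prod_empty, Finset.sum_empty, cl_one hp]
  | insert i S hi ih =>
    rw [Finset.prod_insert hi, Finset.sum_insert hi, cl_mul hp (hf i (Finset.mem_insert_self i S))
      (Finset.prod_ne_zero_iff.2 fun j hj => hf j (Finset.mem_insert_of_mem hj)),
      ih fun j hj => hf j (Finset.mem_insert_of_mem hj)]

end Pool.Agent.HM4
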