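import Mathlib
import Pool.Agent.Lib.HM4.ClM

/-!
Algebraic properties of the symbol.
-/

set_option autoImplicit false

namespace Pool.Agent.HM4

variable {p : ℕ} {a b c : ℤ}

private theorem HsM_two (x : ZMod 2) : x + x = 0 := by
  revert x
  decide

private theorem HsM_eq {x y : ZMod 2} (h : x + y = 0) : x = y := by
  revert x y
  decide

theorem cl_add_self (x : Cl) : x + x = 0 := by
  obtain ⟨u, v, w⟩ := x
  show (u + u, v + v, w + w) = (0, 0, 0)
  rw [HsM_two, HsM_two, HsM_two]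

theorem hs_mul_left (hp : p.Prime) (ha : a ≠ 0) (hb : b ≠ 0) :
    hs p (a * b) c = hs p a c + hs p b c := by
  unfold hs
  rw [cl_mul hp ha hb, bf_add_left]

theorem hs_mul_right (hp : p.Prime) (ha : a ≠ 0) (hb : b ≠ 0) :
    hs p c (a * b) = hs p c a + hs p c b := by
  unfold hs
  rw [cl_mul hp ha hb, bf_add_right]

theorem hs_one_left (hp : p.Prime) : hs p 1 b = 0 := by
  unfold hs
  rw [cl_one hp, bf_zero_left]

theorem hs_one_right (hp : p.Prime) : hs p b 1 = 0 := by
  unfold hs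
  rw [cl_one hp, bf_zero_right]

theorem hs_mul_sq (hp : p.Prime) (ha : a ≠ 0) (hc : c ≠ 0) : hs p (a * c ^ 2) b = hs p a b := by
  unfold hs
  rw [cl_mul_sq hp ha hc]

theorem hs_unit (hp : p.Prime) (h2 : p ≠ 2) (ha : ¬ (p : ℤ) ∣ a) (hb : ¬ (p : ℤ) ∣ b) :
    hs p a b = 0 := by
  unfold hs bf
  rw [cl_of_not_dvd hp h2 ha, cl_of_not_dvd hp h2 hb, if_neg h2]
  simp

theorem hs_neg_self (hp : p.Prime) (ha : a ≠ 0) : hs p a (-a) = 0 := by
  have h1 : cl p (-a) = cl p (-1) + cl p a := by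
    rw [← cl_mul hp (by norm_num) ha, neg_one_mul]
  unfold hs
  rw [h1]
  generalize cl p a = x
  obtain ⟨u, v, w⟩ := x
  by_cases h2 : p = 2
  · subst h2
    rw [cl_two_neg_one]
    unfold bf
    rw [if_pos rfl]
    show v * (1 + v) + u * (0 + w) + w * (0 + u) = 0
    revert u v w
    decide
  · rw [cl_neg_one hp h2]
    unfold bf
    rw [if_neg h2]
    generalize (((p - 1) / 2 : ℕ) : ZMod 2) = e
    show u * (e + v) + v * (0 + u) + e * (u * (0 + u)) = 0
    clear h1
    revert u v e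
    decide

theorem hs_self (hp : p.Prime) (ha : a ≠ 0) : hs p a a = hs p a (-1) := by
  apply HsM_eq
  rw [← hs_mul_right hp ha (by norm_num), mul_neg_one, hs_neg_self hp ha]

theorem hs_scale (hp : p.Prime) {s : ℤ} (ha : a ≠ 0) (hb : b ≠ 0) (hs0 : s ≠ 0) :
    hs p (a * s) (b * s) = hs p a b + hs p s (-(a * b)) := by
  have h1 : -(a * b) = (-1) * (a * b) := by ring
  rw [h1, hs_mul_right hp (by norm_num) (mul_ne_zero ha hb), hs_mul_right hp ha hb,
    hs_mul_left hp ha hs0, hs_mul_right hp hb hs0, hs_mul_right hp hb hs0, hs_self hp hs0,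
    hs_comm p s a]
  ring

end Pool.Agent.HM4
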