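import Mathlib
import Pool.Agent.Lib.HM4.HsM

/-!
Values `r^2 - A` are norms at odd primes.
-/

set_option autoImplicit false

namespace Pool.Agent.HM4

private theorem NormP_cl_square {p : ℕ} (hp : p.Prime) (h2 : p ≠ 2) {a r : ℤ}
    (ha : ¬ (p : ℤ) ∣ a) (h : ((a : ℤ) : ZMod p) = (r : ZMod p) ^ 2) : cl p a = 0 := by
  classical
  rw [cl_of_not_dvd hp h2 ha, if_pos]
  · rfl
  · exact ⟨(r : ZMod p), by rw [h, sq]⟩

private theorem NormP_cl_congr {p : ℕ} (hp : p.Prime) (h2 : p ≠ 2) {a b : ℤ}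
    (ha : ¬ (p : ℤ) ∣ a) (hb : ¬ (p : ℤ) ∣ b) (h : ((a : ℤ) : ZMod p) = ((b : ℤ) : ZMod p)) :
    cl p a = cl p b := by
  classical
  rw [cl_of_not_dvd hp h2 ha, cl_of_not_dvd hp h2 hb, h]

theorem hs_norm {p : ℕ} (hp : p.Prime) (h2 : p ≠ 2) {A r : ℤ} (hA : Squarefree A)
    (hN : r ^ 2 - A ≠ 0) : hs p A (r ^ 2 - A) = 0 := by
  have hpz : Prime (p : ℤ) := Nat.prime_iff_prime_int.mp hp
  have hp0 : (p : ℤ) ≠ 0 := hpz.ne_zero
  have hcast : ((p : ℤ) : ZMod p) = 0 := by simp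
  by_cases hpA : (p : ℤ) ∣ A
  · obtain ⟨A', rfl⟩ := hpA
    have hA' : ¬ (p : ℤ) ∣ A' := by
      rintro ⟨B, rfl⟩
      exact hpz.not_isUnit (hA (p : ℤ) ⟨B, by ring⟩)
    have hA'0 : A' ≠ 0 := fun h => hA' (h ▸ dvd_zero _)
    by_cases hpr : (p : ℤ) ∣ r
    · obtain ⟨r', rfl⟩ := hpr
      have e : ((p : ℤ) * r') ^ 2 - p * A' = p * (p * r' ^ 2 - A') := by ring
      rw [e] at hN ⊢
      have hN' : ¬ (p : ℤ) ∣ (p * r' ^ 2 - A') := by
        intro h
        apply hA'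
        have h3 : (p : ℤ) ∣ p * r' ^ 2 := dvd_mul_right _ _
        exact (dvd_sub_right h3).1 h
      have hN'0 : (p * r' ^ 2 - A' : ℤ) ≠ 0 := fun h => hN' (h ▸ dvd_zero _)
      have hnA : ¬ (p : ℤ) ∣ -A' := fun h => hA' ((dvd_neg).1 h)
      have h4 : cl p (p * r' ^ 2 - A') = cl p (-A') := by
        apply NormP_cl_congr hp h2 hN' hnA
        push_cast
        simp
      have h5 : cl p (p * (p * r' ^ 2 - A')) = cl p (-(p * A')) := by
        rw [cl_mul hp hp0 hN'0, h4, ← cl_mul hp hp0 (neg_ne_zero.2 hA'0), mul_neg]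
      have h6 := hs_neg_self (p := p) (a := (p : ℤ) * A') hp (mul_ne_zero hp0 hA'0)
      unfold hs at h6 ⊢
      rw [h5]
      exact h6
    · have hN' : ¬ (p : ℤ) ∣ (r ^ 2 - p * A') := by
        intro h
        apply hpr
        have h3 : (p : ℤ) ∣ p * A' := dvd_mul_right _ _
        exact hpz.dvd_of_dvd_pow ((dvd_sub_left h3).1 h)
      have h4 : cl p (r ^ 2 - p * A') = 0 := by
        apply NormP_cl_square hp h2 hN' (r := r)
        push_cast
        simp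
      unfold hs
      rw [h4, bf_zero_right]
  · by_cases hpN : (p : ℤ) ∣ (r ^ 2 - A)
    · have h3 : ((A : ℤ) : ZMod p) = (r : ZMod p) ^ 2 := by
        have h4 : ((r ^ 2 - A : ℤ) : ZMod p) = 0 := (ZMod.intCast_zmod_eq_zero_iff_dvd _ _).2 hpN
        push_cast at h4
        exact (sub_eq_zero.1 h4).symm
      unfold hs
      rw [NormP_cl_square hp h2 hpA h3, bf_zero_left]
    · exact hs_unit hp h2 hpA hpN

end Pool.Agent.HM4
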