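import Mathlib
import Pool.Agent.Lib.HM4.Defs

/-!
Elementary properties of `Sol`.
-/

set_option autoImplicit false

namespace Pool.Agent.HM4

variable {A B : ℤ}

theorem Sol.symm (h : Sol A B) : Sol B A := by
  obtain ⟨x, y, z, h1, h2⟩ := h
  refine ⟨x, z, y, ?_, by rw [h2]; ring⟩
  rcases h1 with h | h | h
  · exact Or.inl h
  · exact Or.inr (Or.inr h)
  · exact Or.inr (Or.inl h)

theorem Sol.mul_sq (h : Sol A B) {m : ℤ} (hm : m ≠ 0) : Sol (A * m ^ 2) B := by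
  obtain ⟨x, y, z, h1, h2⟩ := h
  have hm' : (m : ℚ) ≠ 0 := Int.cast_ne_zero.2 hm
  refine ⟨m * x, y, m * z, ?_, ?_⟩
  · rcases h1 with h | h | h
    · exact Or.inl (mul_ne_zero hm' h)
    · exact Or.inr (Or.inl h)
    · exact Or.inr (Or.inr (mul_ne_zero hm' h))
  · push_cast
    rw [mul_pow, h2]
    ring

theorem Sol.of_sq (m B : ℤ) : Sol (m ^ 2) B := by
  refine ⟨m, 1, 0, Or.inr (Or.inl one_ne_zero), ?_⟩
  push_cast
  ring

theorem Sol.step {r B' : ℤ} (hB : B ≠ 0) (hB' : B' ≠ 0) (hr : r ^ 2 - A = B * B') (h : Sol A B') :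
    Sol A B := by
  obtain ⟨x, y, z, h1, h2⟩ := h
  have hr' : (r : ℚ) ^ 2 - A = B * B' := by exact_mod_cast hr
  by_cases hz : z = 0
  · subst hz
    refine ⟨x, y, 0, h1, ?_⟩
    rw [h2]
    ring
  · refine ⟨r * x + A * y, r * y + x, B' * z,
      Or.inr (Or.inr (mul_ne_zero (Int.cast_ne_zero.2 hB') hz)), ?_⟩
    have h3 : (r * x + A * y : ℚ) ^ 2 - A * (r * y + x) ^ 2 = ((r : ℚ) ^ 2 - A) * (x ^ 2 - A * y ^ 2) := by
      ring
    have h4 : x ^ 2 - A * y ^ 2 = B' * z ^ 2 := by rw [h2]; ring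
    rw [hr', h4] at h3
    linear_combination h3

end Pool.Agent.HM4
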