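import Mathlib

/-!
Squares modulo a squarefree number.
-/

set_option autoImplicit false

namespace Pool.Agent.HM4

private theorem SqM_nat (A : ℤ) : ∀ n : ℕ, Squarefree n →
    (∀ p : ℕ, p.Prime → p ∣ n → IsSquare ((A : ℤ) : ZMod p)) →
    ∃ t : ℤ, (n : ℤ) ∣ t ^ 2 - A := by
  intro n
  induction n using Nat.strong_induction_on with
  | _ n ih =>
    intro hn h
    rcases eq_or_ne n 1 with rfl | hn1
    · exact ⟨0, by simp⟩
    have hn0 : n ≠ 0 := hn.ne_zero
    have hp : (n.minFac).Prime := Nat.minFac_prime hn1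
    obtain ⟨m, hm⟩ := Nat.minFac_dvd n
    set p := n.minFac with hpdef
    have hsq := hn
    rw [hm, Nat.squarefree_mul_iff] at hsq
    obtain ⟨hcop, -, hmsq⟩ := hsq
    have hm0 : m ≠ 0 := by
      rintro rfl
      exact hn0 (by rw [hm, mul_zero])
    have hmn : m < n := by
      rw [hm]
      have := hp.two_le
      nlinarith [Nat.pos_of_ne_zero hm0]
    obtain ⟨tm, htm⟩ := ih m hmn hmsq (fun q hq hqm => h q hq (by rw [hm]; exact hqm.mul_left p))
    obtain ⟨x, hx⟩ := h p hp (by rw [hm]; exact dvd_mul_right p m)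
    obtain ⟨tp, htp⟩ := ZMod.intCast_surjective x
    have htp' : (p : ℤ) ∣ tp ^ 2 - A := by
      rw [← ZMod.intCast_zmod_eq_zero_iff_dvd]
      push_cast
      rw [htp, hx]
      ring
    have hc : IsCoprime (p : ℤ) (m : ℤ) := Nat.isCoprime_iff_coprime.2 hcop
    obtain ⟨u, v, huv⟩ := hc
    refine ⟨tm * u * p + tp * v * m, ?_⟩
    rw [hm, Nat.cast_mul]
    refine IsCoprime.mul_dvd (Nat.isCoprime_iff_coprime.2 hcop) ?_ ?_
    · have e : (tm * u * p + tp * v * m) ^ 2 - A = (tp ^ 2 - A) +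
          (p : ℤ) * (u * (tm - tp) * (tm * u * p + tp * v * m + tp)) := by
        have : v * (m : ℤ) = 1 - u * p := by linarith
        rw [mul_assoc tp, this]
        ring
      rw [e]
      exact dvd_add htp' (dvd_mul_right _ _)
    · have e : (tm * u * p + tp * v * m) ^ 2 - A = (tm ^ 2 - A) +
          (m : ℤ) * (v * (tp - tm) * (tm * u * p + tp * v * m + tm)) := by
        have : u * (p : ℤ) = 1 - v * m := by linarith
        rw [mul_assoc tm, this]
        ring
      rw [e]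
      exact dvd_add htm (dvd_mul_right _ _)

theorem sq_mod {B : ℤ} (hB : Squarefree B) (A : ℤ)
    (h : ∀ p : ℕ, p.Prime → (p : ℤ) ∣ B → IsSquare ((A : ℤ) : ZMod p)) :
    ∃ r : ℤ, B ∣ r ^ 2 - A ∧ 2 * |r| ≤ |B| := by
  have hB0 : B ≠ 0 := hB.ne_zero
  obtain ⟨t, ht⟩ := SqM_nat A B.natAbs (Int.squarefree_natAbs.2 hB)
    (fun p hp hpB => h p hp (Int.natCast_dvd.2 hpB))
  rw [Int.natAbs_dvd] at ht
  have hb : 0 < |B| := abs_pos.2 hB0
  have hred : ∀ s : ℤ, B ∣ s - t → B ∣ s ^ 2 - A := by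
    intro s hs
    have e : s ^ 2 - A = (t ^ 2 - A) + (s - t) * (s + t) := by ring
    rw [e]
    exact dvd_add ht (hs.mul_right _)
  have h1 : 0 ≤ t % |B| := Int.emod_nonneg _ hb.ne'
  have h2 : t % |B| < |B| := Int.emod_lt_of_pos _ hb
  have h3 : B ∣ t % |B| - t := by
    rw [← abs_dvd]
    have := Int.mul_ediv_add_emod t |B|
    exact ⟨-(t / |B|), by linarith⟩
  rcases le_or_gt (2 * (t % |B|)) |B| with hle | hgt
  · refine ⟨t % |B|, hred _ h3, ?_⟩
    rw [abs_of_nonneg h1]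
    exact hle
  · refine ⟨t % |B| - |B|, hred _ ?_, ?_⟩
    · have e : t % |B| - |B| - t = (t % |B| - t) - |B| := by ring
      rw [e]
      exact dvd_sub h3 ((dvd_abs _ _).2 dvd_rfl)
    · rw [abs_of_nonpos (by linarith)]
      linarith

theorem exists_squarefree {A : ℤ} (hA : A ≠ 0) :
    ∃ A₀ m : ℤ, A = A₀ * m ^ 2 ∧ Squarefree A₀ ∧ m ≠ 0 := by
  obtain ⟨a, b, hab, ha⟩ := Nat.sq_mul_squarefree A.natAbs
  have h1 : ((b : ℤ)) ^ 2 * a = |A| := by
    rw [← Int.natCast_natAbs, ← hab]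
    push_cast
    rfl
  refine ⟨A.sign * a, b, ?_, ?_, ?_⟩
  · have h2 : A = A.sign * |A| := (Int.sign_mul_abs A).symm
    conv_lhs => rw [h2, ← h1]
    ring
  · rw [← Int.squarefree_natAbs, Int.natAbs_mul, Int.natAbs_sign_of_ne_zero hA, one_mul]
    simpa using ha
  · rintro hb
    have hb' : b = 0 := by exact_mod_cast hb
    rw [hb'] at h1
    have : |A| = 0 := by rw [← h1]; simp
    exact hA (abs_eq_zero.1 this)

end Pool.Agent.HM4
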