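import Mathlib
import Pool.Agent.Lib.HM4.NormP
import Pool.Agent.Lib.HM4.SqM
import Pool.Agent.Lib.HM4.SolM

/-!
Legendre, in the form of Hilbert symbols at the odd primes.
-/

set_option autoImplicit false

namespace Pool.Agent.HM4

private theorem Leg_isSquare {p : ℕ} (hp : p.Prime) (h2 : p ≠ 2) {A B : ℤ}
    (hA : ¬ (p : ℤ) ∣ A) (hB : Squarefree B) (hpB : (p : ℤ) ∣ B) (h : hs p A B = 0) :
    IsSquare ((A : ℤ) : ZMod p) := by
  classical
  have hpz : Prime (p : ℤ) := Nat.prime_iff_prime_int.mp hp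
  obtain ⟨B', rfl⟩ := hpB
  have hB' : ¬ (p : ℤ) ∣ B' := by
    rintro ⟨C, rfl⟩
    exact hpz.not_isUnit (hB (p : ℤ) ⟨C, by ring⟩)
  have hB'0 : B' ≠ 0 := fun h => hB' (h ▸ dvd_zero _)
  by_contra hns
  unfold hs at h
  rw [cl_mul hp hpz.ne_zero hB'0, cl_self hp, cl_of_not_dvd hp h2 hA, cl_of_not_dvd hp h2 hB',
    if_neg hns] at h
  unfold bf at h
  rw [if_neg h2] at h
  simp at h

private theorem Leg_step (n : ℕ)
    (ih : ∀ A B : ℤ, A ≠ 0 → B ≠ 0 → (0 < A ∨ 0 < B) →
      (∀ p : ℕ, p.Prime → p ≠ 2 → hs p A B = 0) → |A| + |B| < n → Sol A B)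
    (A B : ℤ) (hA : Squarefree A) (hB : Squarefree B) (hpos : 0 < A ∨ 0 < B)
    (h : ∀ p : ℕ, p.Prime → p ≠ 2 → hs p A B = 0) (hn : |A| + |B| ≤ n) (hle : |A| ≤ |B|) :
    Sol A B := by
  have hA0 : A ≠ 0 := hA.ne_zero
  have hB0 : B ≠ 0 := hB.ne_zero
  have hA1 : 0 < |A| := abs_pos.2 hA0
  have hB1 : 0 < |B| := abs_pos.2 hB0
  rcases (by omega : |B| = 1 ∨ 2 ≤ |B|) with hb | hb
  · have ha : |A| = 1 := by omega
    rcases hpos with h1 | h1
    · have : A = 1 := by rw [abs_of_pos h1] at ha; exact ha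
      rw [this]
      simpa using Sol.of_sq 1 B
    · have : B = 1 := by rw [abs_of_pos h1] at hb; exact hb
      rw [this]
      apply Sol.symm
      simpa using Sol.of_sq 1 A
  · obtain ⟨r, ⟨B', hr⟩, hr2⟩ := sq_mod hB A (by
      intro p hp hpB
      by_cases hpA : (p : ℤ) ∣ A
      · rw [(ZMod.intCast_zmod_eq_zero_iff_dvd A p).2 hpA]
        exact ⟨0, by simp⟩
      · by_cases h2 : p = 2
        · subst h2
          generalize ((A : ℤ) : ZMod 2) = x
          refine ⟨x, ?_⟩
          revert x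
          decide
        · exact Leg_isSquare hp h2 hpA hB hpB (h p hp h2))
    by_cases hB'0 : B' = 0
    · have : A = r ^ 2 := by
        rw [hB'0, mul_zero] at hr
        linarith
      rw [this]
      exact Sol.of_sq r B
    · have hN : r ^ 2 - A ≠ 0 := by
        rw [hr]
        exact mul_ne_zero hB0 hB'0
      have habs : |B| * |B'| ≤ r ^ 2 + |A| := by
        rw [← abs_mul, ← hr]
        calc |r ^ 2 - A| ≤ |r ^ 2| + |A| := abs_sub _ _
          _ = r ^ 2 + |A| := by rw [abs_of_nonneg (sq_nonneg r)]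
      have hr4 : 4 * r ^ 2 ≤ |B| ^ 2 := by
        have h0 : 0 ≤ 2 * |r| := by positivity
        have h3 : (2 * |r|) ^ 2 ≤ |B| ^ 2 := pow_le_pow_left₀ h0 hr2 2
        have h4 : (2 * |r|) ^ 2 = 4 * r ^ 2 := by
          rw [mul_pow, sq_abs]
          norm_num
        rw [h4] at h3
        exact h3
      have hlt : |B'| < |B| := by
        by_contra hge
        push Not at hge
        nlinarith
      refine Sol.step hB0 hB'0 hr (ih A B' hA0 hB'0 ?_ ?_ (by omega))
      · rcases hpos with h1 | h1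
        · exact Or.inl h1
        · by_cases h3 : 0 < A
          · exact Or.inl h3
          · right
            have h4 : 0 < B * B' := by
              rw [← hr]
              have : 0 ≤ r ^ 2 := sq_nonneg r
              have h5 : A < 0 := lt_of_le_of_ne (not_lt.1 h3) hA0
              linarith
            exact (pos_iff_pos_of_mul_pos h4).1 h1
      · intro p hp h2
        have h3 := hs_norm hp h2 hA hN
        rw [hr, hs_mul_right hp hB0 hB'0, h p hp h2, zero_add] at h3
        exact h3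

private theorem Leg_bound {A A₀ m : ℤ} (h : A = A₀ * m ^ 2) (hm : m ≠ 0) : |A₀| ≤ |A| := by
  rw [h, abs_mul, abs_of_nonneg (sq_nonneg m)]
  have h1 : 1 ≤ m ^ 2 := by
    have : 0 < m ^ 2 := by positivity
    omega
  nlinarith [abs_nonneg A₀]

private theorem Leg_main (n : ℕ) : ∀ A B : ℤ, A ≠ 0 → B ≠ 0 → (0 < A ∨ 0 < B) →
    (∀ p : ℕ, p.Prime → p ≠ 2 → hs p A B = 0) → |A| + |B| < n → Sol A B := by
  induction n with
  | zero =>
    intro A B _ _ _ _ h
    have h1 := abs_nonneg A
    have h2 := abs_nonneg B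
    simp only [Nat.cast_zero] at h
    omega
  | succ n ih =>
    intro A B hA hB hpos h hn
    obtain ⟨A₀, m, hA', hA₀, hm⟩ := exists_squarefree hA
    obtain ⟨B₀, k, hB', hB₀, hk⟩ := exists_squarefree hB
    have hb1 := Leg_bound hA' hm
    have hb2 := Leg_bound hB' hk
    have hm2 : 0 < m ^ 2 := by positivity
    have hk2 : 0 < k ^ 2 := by positivity
    have hpos' : 0 < A₀ ∨ 0 < B₀ := by
      rcases hpos with h1 | h1
      · left
        rw [hA'] at h1
        exact (pos_iff_pos_of_mul_pos h1).2 hm2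
      · right
        rw [hB'] at h1
        exact (pos_iff_pos_of_mul_pos h1).2 hk2
    have h' : ∀ p : ℕ, p.Prime → p ≠ 2 → hs p A₀ B₀ = 0 := by
      intro p hp h2
      have h3 := h p hp h2
      rw [hA', hB', hs_mul_sq hp hA₀.ne_zero hm, hs_comm, hs_mul_sq hp hB₀.ne_zero hk,
        hs_comm] at h3
      exact h3
    have hn' : |A₀| + |B₀| ≤ n := by
      push_cast at hn
      omega
    have key : Sol A₀ B₀ := by
      rcases le_total |A₀| |B₀| with hle | hle
      · exact Leg_step n ih A₀ B₀ hA₀ hB₀ hpos' h' hn' hle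
      · refine (Leg_step n ih B₀ A₀ hB₀ hA₀ hpos'.symm ?_ (by omega) hle).symm
        intro p hp h2
        rw [hs_comm]
        exact h' p hp h2
    rw [hA', hB']
    exact ((key.mul_sq hm).symm.mul_sq hk).symm

theorem sol_of_hs (A B : ℤ) (hA : A ≠ 0) (hB : B ≠ 0) (hpos : 0 < A ∨ 0 < B)
    (h : ∀ p : ℕ, p.Prime → p ≠ 2 → hs p A B = 0) : Sol A B := by
  refine Leg_main ((|A| + |B|).toNat + 1) A B hA hB hpos h ?_
  have h1 := abs_nonneg A
  have h2 := abs_nonneg B
  push_cast
  rw [Int.toNat_of_nonneg (by omega)]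
  omega

end Pool.Agent.HM4
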