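import Mathlib
import Pool.Agent.Lib.HM4.HsM

/-!
The local problem.
-/

set_option autoImplicit false

namespace Pool.Agent.HM4

private def loc2 : Cl → Cl → ZMod 2 := fun x y => x.2.1 * y.2.1 + x.1 * y.2.2 + x.2.2 * y.1

private def locq (q : ZMod 2) : Cl → Cl → ZMod 2 :=
  fun x y => x.1 * y.2.1 + x.2.1 * y.1 + q * (x.1 * y.1)

private theorem loc_two_aux : ∀ α1 α2 α3 γ1 γ2 γ3 e f : ZMod 2,
    (α1 = 0 ∧ α2 = 0 ∧ α3 = 0 → e = 0) → (γ1 = 0 ∧ γ2 = 0 ∧ γ3 = 0 → f = 0) →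
    ∃ s1 s2 s3 u1 u2 u3 : ZMod 2, loc2 (s1, s2, s3) (α1, α2, α3) = e ∧
      loc2 (u1, u2, u3) (γ1, γ2, γ3) = f ∧ loc2 (s1, s2, s3) (u1, u2, u3) = 0 := by
  decide +kernel

private theorem loc_odd_aux : ∀ q α1 α2 γ1 γ2 e f : ZMod 2,
    (α1 = 0 ∧ α2 = 0 → e = 0) → (γ1 = 0 ∧ γ2 = 0 → f = 0) →
    ∃ s1 s2 u1 u2 : ZMod 2, locq q (s1, s2, 0) (α1, α2, 0) = e ∧
      locq q (u1, u2, 0) (γ1, γ2, 0) = f ∧ locq q (s1, s2, 0) (u1, u2, 0) = 0 := by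
  decide +kernel

private theorem loc_cond {p : ℕ} (hp : p.Prime) {a b : ℤ} (ha : a ≠ 0) (hb : b ≠ 0)
    (h : cl p (-(a * b)) = 0) : hs p a b = 0 := by
  have h1 : cl p (-(a * b)) = cl p (-a) + cl p b := by
    rw [← neg_mul, cl_mul hp (neg_ne_zero.mpr ha) hb]
  rw [h1] at h
  have h2 : cl p b = cl p (-a) := by
    have h3 : ∀ x y : Cl, x + y = 0 → y = x := by decide
    exact h3 _ _ h
  have h4 : hs p a b = hs p a (-a) := by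
    unfold hs
    rw [h2]
  rw [h4]
  exact hs_neg_self hp ha

theorem loc_two : ∀ α γ : Cl, ∀ e f : ZMod 2, (α = 0 → e = 0) → (γ = 0 → f = 0) →
    ∃ s u : Cl, bf 2 s α = e ∧ bf 2 u γ = f ∧ bf 2 s u = 0 := by
  rintro ⟨α1, α2, α3⟩ ⟨γ1, γ2, γ3⟩ e f he hf
  obtain ⟨s1, s2, s3, u1, u2, u3, h5, h6, h7⟩ := loc_two_aux α1 α2 α3 γ1 γ2 γ3 e f
    (fun h => he (by rw [h.1, h.2.1, h.2.2]; rfl)) (fun h => hf (by rw [h.1, h.2.1, h.2.2]; rfl))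
  exact ⟨(s1, s2, s3), (u1, u2, u3), h5, h6, h7⟩

theorem loc_odd {p : ℕ} (h2 : p ≠ 2) (α γ : Cl) (hα : α.2.2 = 0) (hγ : γ.2.2 = 0) (e f : ZMod 2)
    (he : α = 0 → e = 0) (hf : γ = 0 → f = 0) :
    ∃ s u : Cl, s.2.2 = 0 ∧ u.2.2 = 0 ∧ bf p s α = e ∧ bf p u γ = f ∧ bf p s u = 0 := by
  have hbf : ∀ x y : Cl, bf p x y = locq (((p - 1) / 2 : ℕ) : ZMod 2) x y := by
    intro x y
    unfold bf locq
    rw [if_neg h2]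
  obtain ⟨α1, α2, α3⟩ := α
  obtain ⟨γ1, γ2, γ3⟩ := γ
  have h3 : α3 = 0 := hα
  have h4 : γ3 = 0 := hγ
  subst h3 h4
  obtain ⟨s1, s2, u1, u2, h5, h6, h7⟩ := loc_odd_aux (((p - 1) / 2 : ℕ) : ZMod 2) α1 α2 γ1 γ2 e f
    (fun h => he (by rw [h.1, h.2]; rfl)) (fun h => hf (by rw [h.1, h.2]; rfl))
  exact ⟨(s1, s2, 0), (u1, u2, 0), rfl, rfl, by rw [hbf]; exact h5, by rw [hbf]; exact h6,
    by rw [hbf]; exact h7⟩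

theorem loc {p : ℕ} (hp : p.Prime) {a b c d : ℤ} (ha : a ≠ 0) (hb : b ≠ 0) (hc : c ≠ 0)
    (hd : d ≠ 0) :
    ∃ s u : Cl, (p ≠ 2 → s.2.2 = 0 ∧ u.2.2 = 0) ∧ bf p s (cl p (-(a * b))) = hs p a b ∧
      bf p u (cl p (-(c * d))) = hs p c d ∧ bf p s u = 0 := by
  by_cases h2 : p = 2
  · subst h2
    obtain ⟨s, u, h3, h4, h5⟩ := loc_two (cl 2 (-(a * b))) (cl 2 (-(c * d))) (hs 2 a b) (hs 2 c d)
      (loc_cond hp ha hb) (loc_cond hp hc hd)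
    exact ⟨s, u, fun h => absurd rfl h, h3, h4, h5⟩
  · obtain ⟨s, u, hs1, hu1, h3, h4, h5⟩ := loc_odd h2 (cl p (-(a * b))) (cl p (-(c * d)))
      (cl_snd_snd h2 _) (cl_snd_snd h2 _) (hs p a b) (hs p c d) (loc_cond hp ha hb)
      (loc_cond hp hc hd)
    exact ⟨s, u, fun _ => ⟨hs1, hu1⟩, h3, h4, h5⟩

end Pool.Agent.HM4
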