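import Mathlib
import Pool.Agent.Lib.HM4.HsM

/-!
The product formula for primes and `-1` (quadratic reciprocity and its supplements).
-/

set_option autoImplicit false

namespace Pool.Agent.HM4

variable {S : Finset ℕ}

private theorem Rec_add_self (x : ZMod 2) : x + x = 0 := by
  revert x
  decide

private theorem Rec_ite {P Q : Prop} (i : Decidable P) (j : Decidable Q) (h : P ↔ Q) :
    (@ite (ZMod 2) P i 0 1) = (@ite (ZMod 2) Q j 0 1) := by
  by_cases hP : P
  · rw [if_pos hP, if_pos (h.1 hP)]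
  · rw [if_neg hP, if_neg (fun hQ => hP (h.2 hQ))]

private theorem Rec_not_dvd {p l : ℕ} (hp : p.Prime) (hl : l.Prime) (h : p ≠ l) :
    ¬ (p : ℤ) ∣ (l : ℤ) := by
  intro h1
  exact h ((Nat.prime_dvd_prime_iff_eq hp hl).1 (Int.natCast_dvd_natCast.1 h1))

private theorem Rec_not_dvd_neg_one {p : ℕ} (hp : p.Prime) : ¬ (p : ℤ) ∣ -1 := by
  intro h1
  rw [dvd_neg] at h1
  have h2 : (p : ℤ) ∣ ((1 : ℕ) : ℤ) := by exact_mod_cast h1
  exact hp.one_lt.ne' (Nat.dvd_one.1 (Int.natCast_dvd_natCast.1 h2))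

private theorem Rec_bf_two (e o e' o' : ZMod 2) : bf 2 (0, e, o) (0, e', o') = e * e' := by
  unfold bf
  rw [if_pos rfl]
  show e * e' + 0 * o' + o * 0 = e * e'
  ring

private theorem Rec_bf_two' (e o : ZMod 2) : bf 2 (0, e, o) (1, 0, 0) = o := by
  unfold bf
  rw [if_pos rfl]
  show e * 0 + 0 * 0 + o * 1 = o
  ring

private theorem Rec_bf_odd {l : ℕ} (hl2 : l ≠ 2) (c : ZMod 2) : bf l (1, 0, 0) (0, c, 0) = c := by
  unfold bf
  rw [if_neg hl2]
  show 1 * c + 0 * 0 + (((l - 1) / 2 : ℕ) : ZMod 2) * (1 * 0) = c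
  ring

private theorem Rec_bf_odd' {l : ℕ} (hl2 : l ≠ 2) (c : ZMod 2) :
    bf l (0, c, 0) (1, 0, 0) = c := by
  rw [bf_comm, Rec_bf_odd hl2]

private theorem Rec_odd {l : ℕ} (hl : l.Prime) (hl2 : l ≠ 2) : (l : ℤ) % 2 = 1 := by
  have h := Nat.odd_iff.1 (hl.odd_of_ne_two hl2)
  omega

private theorem Rec_two_cases {l : ℕ} (hl : l.Prime) (hl2 : l ≠ 2) : l % 4 = 1 ∨ l % 4 = 3 := by
  have h := Nat.odd_iff.1 (hl.odd_of_ne_two hl2)
  omega

theorem gen_neg_one (hS : ∀ p ∈ S, p.Prime) (h2 : 2 ∈ S) {l : ℕ} (hl : l.Prime) (hlS : l ∈ S) :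
    ∑ p ∈ S, hs p (l : ℤ) (-1) = 0 := by
  by_cases hl2 : l = 2
  · subst hl2
    rw [Finset.sum_eq_single 2]
    · unfold hs
      rw [cl_self Nat.prime_two, cl_two_neg_one]
      unfold bf
      rw [if_pos rfl]
      decide
    · intro p hp hp2
      exact hs_unit (hS p hp) hp2 (Rec_not_dvd (hS p hp) Nat.prime_two hp2)
        (Rec_not_dvd_neg_one (hS p hp))
    · exact fun h => absurd h2 h
  · have hT : ({2, l} : Finset ℕ) ⊆ S := by
      intro p hp
      rw [Finset.mem_insert, Finset.mem_singleton] at hp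
      rcases hp with h | h
      · rw [h]; exact h2
      · rw [h]; exact hlS
    rw [← Finset.sum_subset hT]
    · rw [Finset.sum_pair (fun h => hl2 h.symm)]
      have e1 : hs 2 (l : ℤ) (-1) = (((l - 1) / 2 : ℕ) : ZMod 2) := by
        unfold hs
        rw [cl_two_of_odd (Rec_odd hl hl2), cl_two_neg_one, Rec_bf_two, mul_one]
        rcases Rec_two_cases hl hl2 with h | h
        · rw [if_pos (by omega)]
          exact ((ZMod.natCast_eq_zero_iff_even).2 (by rw [Nat.even_iff]; omega)).symm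
        · rw [if_neg (by omega)]
          exact ((ZMod.natCast_eq_one_iff_odd).2 (by rw [Nat.odd_iff]; omega)).symm
      have e2 : hs l (l : ℤ) (-1) = (((l - 1) / 2 : ℕ) : ZMod 2) := by
        unfold hs
        rw [cl_self hl, cl_neg_one hl hl2, Rec_bf_odd hl2]
      rw [e1, e2, Rec_add_self]
    · intro p hp hpT
      rw [Finset.mem_insert, Finset.mem_singleton, not_or] at hpT
      exact hs_unit (hS p hp) hpT.1 (Rec_not_dvd (hS p hp) hl hpT.2)
        (Rec_not_dvd_neg_one (hS p hp))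

theorem gen_self (hS : ∀ p ∈ S, p.Prime) (h2 : 2 ∈ S) {l : ℕ} (hl : l.Prime) (hlS : l ∈ S) :
    ∑ p ∈ S, hs p (l : ℤ) (l : ℤ) = 0 := by
  rw [← gen_neg_one hS h2 hl hlS]
  refine Finset.sum_congr rfl fun p hp => ?_
  exact hs_self (hS p hp) (by exact_mod_cast hl.ne_zero)

theorem gen_two (hS : ∀ p ∈ S, p.Prime) (h2 : 2 ∈ S) {l : ℕ} (hl : l.Prime) (hlS : l ∈ S)
    (hl2 : l ≠ 2) : ∑ p ∈ S, hs p (l : ℤ) 2 = 0 := by
  have : Fact l.Prime := ⟨hl⟩
  have hT : ({2, l} : Finset ℕ) ⊆ S := by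
    intro p hp
    rw [Finset.mem_insert, Finset.mem_singleton] at hp
    rcases hp with h | h
    · rw [h]; exact h2
    · rw [h]; exact hlS
  rw [← Finset.sum_subset hT]
  · rw [Finset.sum_pair (fun h => hl2 h.symm)]
    have e1 : hs 2 (l : ℤ) 2 = if l % 8 = 1 ∨ l % 8 = 7 then 0 else 1 := by
      unfold hs
      have h3 : cl 2 (2 : ℤ) = (1, 0, 0) := cl_self Nat.prime_two
      rw [cl_two_of_odd (Rec_odd hl hl2), h3, Rec_bf_two']
      exact if_congr (by omega) rfl rfl
    have e2 : hs l (l : ℤ) 2 = if l % 8 = 1 ∨ l % 8 = 7 then 0 else 1 := by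
      unfold hs
      have h3 : ¬ (l : ℤ) ∣ 2 := Rec_not_dvd hl Nat.prime_two hl2
      rw [cl_self hl, cl_of_not_dvd hl hl2 h3, Rec_bf_odd hl2]
      have h4 : ((2 : ℤ) : ZMod l) = 2 := by norm_num
      rw [h4]
      exact Rec_ite _ _ (ZMod.exists_sq_eq_two_iff hl2)
    rw [e1, e2, Rec_add_self]
  · intro p hp hpT
    rw [Finset.mem_insert, Finset.mem_singleton, not_or] at hpT
    exact hs_unit (hS p hp) hpT.1 (Rec_not_dvd (hS p hp) hl hpT.2)
      (Rec_not_dvd (hS p hp) Nat.prime_two hpT.1)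

theorem gen_odd (hS : ∀ p ∈ S, p.Prime) (h2 : 2 ∈ S) {l m : ℕ} (hl : l.Prime) (hm : m.Prime)
    (hlS : l ∈ S) (hmS : m ∈ S) (hl2 : l ≠ 2) (hm2 : m ≠ 2) (hlm : l ≠ m) :
    ∑ p ∈ S, hs p (l : ℤ) (m : ℤ) = 0 := by
  classical
  have : Fact l.Prime := ⟨hl⟩
  have : Fact m.Prime := ⟨hm⟩
  have hT : ({2, l, m} : Finset ℕ) ⊆ S := by
    intro p hp
    rw [Finset.mem_insert, Finset.mem_insert, Finset.mem_singleton] at hp
    rcases hp with h | h | h
    · rw [h]; exact h2
    · rw [h]; exact hlS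
    · rw [h]; exact hmS
  rw [← Finset.sum_subset hT]
  · rw [Finset.sum_insert, Finset.sum_pair hlm]
    · have e1 : hs 2 (l : ℤ) (m : ℤ) =
          (if l % 4 = 1 then 0 else 1) * (if m % 4 = 1 then 0 else 1) := by
        unfold hs
        rw [cl_two_of_odd (Rec_odd hl hl2), cl_two_of_odd (Rec_odd hm hm2), Rec_bf_two]
        congr 1
        · exact if_congr (by omega) rfl rfl
        · exact if_congr (by omega) rfl rfl
      have e2 : hs l (l : ℤ) (m : ℤ) = if IsSquare ((m : ℕ) : ZMod l) then 0 else 1 := by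
        unfold hs
        rw [cl_self hl, cl_of_not_dvd hl hl2 (Rec_not_dvd hl hm hlm), Rec_bf_odd hl2,
          Int.cast_natCast]
        exact Rec_ite _ _ Iff.rfl
      have e3 : hs m (l : ℤ) (m : ℤ) = if IsSquare ((l : ℕ) : ZMod m) then 0 else 1 := by
        unfold hs
        rw [cl_self hm, cl_of_not_dvd hm hm2 (Rec_not_dvd hm hl hlm.symm), Rec_bf_odd' hm2,
          Int.cast_natCast]
        exact Rec_ite _ _ Iff.rfl
      rw [e1, e2, e3]
      rcases Rec_two_cases hl hl2 with h | h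
      · rw [if_pos h, zero_mul, zero_add,
          if_congr (ZMod.exists_sq_eq_prime_iff_of_mod_four_eq_one h hm2) rfl rfl, Rec_add_self]
      · rcases Rec_two_cases hm hm2 with h' | h'
        · rw [if_pos h', mul_zero, zero_add,
            ← if_congr (ZMod.exists_sq_eq_prime_iff_of_mod_four_eq_one h' hl2) rfl rfl,
            Rec_add_self]
        · have h5 := ZMod.exists_sq_eq_prime_iff_of_mod_four_eq_three h h' hlm
          rw [if_neg (by omega), if_neg (by omega)]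
          by_cases h6 : IsSquare ((l : ℕ) : ZMod m)
          · rw [if_neg (fun h7 => h5.1 h7 h6), if_pos h6]
            decide
          · rw [if_pos (h5.2 h6), if_neg h6]
            decide
    · rw [Finset.mem_insert, Finset.mem_singleton, not_or]
      exact ⟨fun h => hl2 h.symm, fun h => hm2 h.symm⟩
  · intro p hp hpT
    rw [Finset.mem_insert, Finset.mem_insert, Finset.mem_singleton, not_or, not_or] at hpT
    exact hs_unit (hS p hp) hpT.1 (Rec_not_dvd (hS p hp) hl hpT.2.1)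
      (Rec_not_dvd (hS p hp) hm hpT.2.2)

end Pool.Agent.HM4
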