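import Mathlib
import Pool.Agent.Lib.HM4.Rec

/-!
The product formula.
-/

set_option autoImplicit false

namespace Pool.Agent.HM4

private theorem Prod_left (S : Finset ℕ) (hS : ∀ p ∈ S, p.Prime) (b : ℤ)
    (hb : ∀ l : ℕ, l.Prime → l ∈ S → ∑ p ∈ S, hs p (l : ℤ) b = 0) (a : ℕ) :
    a ≠ 0 → (∀ p : ℕ, p.Prime → p ∣ a → p ∈ S) → ∑ p ∈ S, hs p (a : ℤ) b = 0 := by
  refine Nat.recOnMul (motive := fun a => a ≠ 0 → (∀ p : ℕ, p.Prime → p ∣ a → p ∈ S) →
    ∑ p ∈ S, hs p (a : ℤ) b = 0) ?_ ?_ ?_ ?_ a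
  · exact fun h _ => absurd rfl h
  · intro _ _
    refine Finset.sum_eq_zero fun p hp => ?_
    rw [Nat.cast_one, hs_one_left (hS p hp)]
  · intro l hl _ h
    exact hb l hl (h l hl dvd_rfl)
  · intro x y hx hy h0 h
    have hx0 : x ≠ 0 := fun h1 => h0 (by rw [h1, zero_mul])
    have hy0 : y ≠ 0 := fun h1 => h0 (by rw [h1, mul_zero])
    have e : ∑ p ∈ S, hs p ((x * y : ℕ) : ℤ) b =
        ∑ p ∈ S, hs p (x : ℤ) b + ∑ p ∈ S, hs p (y : ℤ) b := by
      rw [← Finset.sum_add_distrib]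
      refine Finset.sum_congr rfl fun p hp => ?_
      rw [Nat.cast_mul, hs_mul_left (hS p hp) (by exact_mod_cast hx0) (by exact_mod_cast hy0)]
    rw [e, hx hx0 fun p hp hd => h p hp (hd.mul_right y),
      hy hy0 fun p hp hd => h p hp (hd.mul_left x), add_zero]

private theorem Prod_gen (S : Finset ℕ) (hS : ∀ p ∈ S, p.Prime) (h2 : 2 ∈ S) {l m : ℕ}
    (hl : l.Prime) (hlS : l ∈ S) (hm : m.Prime) (hmS : m ∈ S) :
    ∑ p ∈ S, hs p (l : ℤ) (m : ℤ) = 0 := by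
  by_cases hlm : l = m
  · subst hlm
    exact gen_self hS h2 hl hlS
  · by_cases hm2 : m = 2
    · subst hm2
      exact gen_two hS h2 hl hlS hlm
    · by_cases hl2 : l = 2
      · subst hl2
        have h := gen_two hS h2 hm hmS hm2
        rw [← h]
        refine Finset.sum_congr rfl fun p _ => ?_
        exact hs_comm p _ _
      · exact gen_odd hS h2 hl hm hlS hmS hl2 hm2 hlm

private theorem Prod_nat (S : Finset ℕ) (hS : ∀ p ∈ S, p.Prime) (h2 : 2 ∈ S) (a b : ℕ)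
    (ha : a ≠ 0) (hb : b ≠ 0) (haS : ∀ p : ℕ, p.Prime → p ∣ a → p ∈ S)
    (hbS : ∀ p : ℕ, p.Prime → p ∣ b → p ∈ S) : ∑ p ∈ S, hs p (a : ℤ) (b : ℤ) = 0 := by
  refine Prod_left S hS (b : ℤ) (fun l hl hlS => ?_) a ha haS
  have h := Prod_left S hS (l : ℤ) (fun m hm hmS => Prod_gen S hS h2 hm hmS hl hlS) b hb hbS
  rw [← h]
  exact Finset.sum_congr rfl fun p _ => hs_comm p _ _

/-- Product formula: the first argument is positive, so there is no contribution of the real place. -/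
theorem prod_formula (S : Finset ℕ) (hS : ∀ p ∈ S, p.Prime) (h2 : 2 ∈ S) (a b : ℤ) (ha : 0 < a)
    (hb : b ≠ 0) (h : ∀ p : ℕ, p.Prime → ((p : ℤ) ∣ a ∨ (p : ℤ) ∣ b) → p ∈ S) :
    ∑ p ∈ S, hs p a b = 0 := by
  obtain ⟨A, rfl⟩ := Int.eq_ofNat_of_zero_le ha.le
  have hA0 : A ≠ 0 := by
    rintro rfl
    exact lt_irrefl _ ha
  have hAS : ∀ p : ℕ, p.Prime → p ∣ A → p ∈ S := fun p hp hd =>
    h p hp (Or.inl (Int.natCast_dvd_natCast.2 hd))
  have hB0 : b.natAbs ≠ 0 := Int.natAbs_ne_zero.2 hb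
  have hBS : ∀ p : ℕ, p.Prime → p ∣ b.natAbs → p ∈ S := fun p hp hd =>
    h p hp (Or.inr (Int.natCast_dvd.2 hd))
  have h1 := Prod_nat S hS h2 A b.natAbs hA0 hB0 hAS hBS
  rcases Int.natAbs_eq b with hb' | hb'
  · rw [hb']
    exact h1
  · have h3 := Prod_left S hS (-1) (fun l hl hlS => gen_neg_one hS h2 hl hlS) A hA0 hAS
    have e : ∑ p ∈ S, hs p (A : ℤ) b =
        ∑ p ∈ S, hs p (A : ℤ) (-1) + ∑ p ∈ S, hs p (A : ℤ) (b.natAbs : ℤ) := by
      rw [← Finset.sum_add_distrib]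
      refine Finset.sum_congr rfl fun p hp => ?_
      rw [← hs_mul_right (hS p hp) (by norm_num) (by exact_mod_cast hB0), neg_one_mul, ← hb']
    rw [e, h1, h3, add_zero]

theorem hs_eq_of_others {q : ℕ} (hq : q.Prime) {a b a' b' : ℤ} (ha : 0 < a) (hb : b ≠ 0)
    (ha' : 0 < a') (hb' : b' ≠ 0) (h : ∀ p : ℕ, p.Prime → p ≠ q → hs p a b = hs p a' b') :
    hs q a b = hs q a' b' := by
  classical
  set n : ℕ := (2 * (q : ℤ) * (a * b) * (a' * b')).natAbs with hn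
  have hn0 : n ≠ 0 := by
    rw [hn, Int.natAbs_ne_zero]
    have : (q : ℤ) ≠ 0 := by exact_mod_cast hq.ne_zero
    exact mul_ne_zero (mul_ne_zero (mul_ne_zero two_ne_zero this) (mul_ne_zero ha.ne' hb))
      (mul_ne_zero ha'.ne' hb')
  set S : Finset ℕ := n.primeFactors with hSdef
  have hS : ∀ p ∈ S, p.Prime := fun p hp => Nat.prime_of_mem_primeFactors hp
  have hmem : ∀ p : ℕ, p.Prime → (p : ℤ) ∣ 2 * (q : ℤ) * (a * b) * (a' * b') → p ∈ S := by
    intro p hp hd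
    rw [hSdef, Nat.mem_primeFactors]
    exact ⟨hp, Int.natCast_dvd.1 hd, hn0⟩
  have h2 : 2 ∈ S := hmem 2 Nat.prime_two ⟨(q : ℤ) * (a * b) * (a' * b'), by push_cast; ring⟩
  have hqS : q ∈ S := hmem q hq ⟨2 * (a * b) * (a' * b'), by ring⟩
  have e1 := prod_formula S hS h2 a b ha hb (by
    rintro p hp (hd | hd)
    · exact hmem p hp (hd.trans ⟨2 * (q : ℤ) * b * (a' * b'), by ring⟩)
    · exact hmem p hp (hd.trans ⟨2 * (q : ℤ) * a * (a' * b'), by ring⟩))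
  have e2 := prod_formula S hS h2 a' b' ha' hb' (by
    rintro p hp (hd | hd)
    · exact hmem p hp (hd.trans ⟨2 * (q : ℤ) * (a * b) * b', by ring⟩)
    · exact hmem p hp (hd.trans ⟨2 * (q : ℤ) * (a * b) * a', by ring⟩))
  rw [← Finset.add_sum_erase S _ hqS] at e1 e2
  have e3 : ∑ p ∈ S.erase q, hs p a b = ∑ p ∈ S.erase q, hs p a' b' := by
    refine Finset.sum_congr rfl fun p hp => ?_
    rw [Finset.mem_erase] at hp
    exact h p (hS p hp.2) hp.1
  rw [e3, ← e2] at e1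
  exact add_right_cancel e1

end Pool.Agent.HM4
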