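import Mathlib
import Pool.Agent.Lib.HM4.Leg

/-!
Representation of a positive integer by a positive binary form over the rationals.
-/

set_option autoImplicit false

namespace Pool.Agent.HM4

theorem rep_of_hs {a b s : ℤ} (ha : 0 < a) (hb : 0 < b) (hs0 : 0 < s)
    (h : ∀ p : ℕ, p.Prime → p ≠ 2 → hs p s (-(a * b)) = hs p a b) :
    ∃ x y : ℚ, a * x ^ 2 + b * y ^ 2 = s := by
  have hsol : Sol (a * s) (b * s) := by
    refine sol_of_hs (a * s) (b * s) (mul_pos ha hs0).ne' (mul_pos hb hs0).ne'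
      (Or.inl (mul_pos ha hs0)) fun p hp h2 => ?_
    rw [hs_scale hp ha.ne' hb.ne' hs0.ne', h p hp h2]
    exact CharTwo.add_self_eq_zero _
  obtain ⟨x, y, z, h1, h2⟩ := hsol
  push_cast at h2
  have ha' : (0 : ℚ) < a := Int.cast_pos.2 ha
  have hb' : (0 : ℚ) < b := Int.cast_pos.2 hb
  have hs' : (0 : ℚ) < s := Int.cast_pos.2 hs0
  have hx : x ≠ 0 := by
    rintro rfl
    have e : (a : ℚ) * s * y ^ 2 + b * s * z ^ 2 = 0 := by rw [← h2]; ring
    have e1 : 0 ≤ (a : ℚ) * s * y ^ 2 := by positivity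
    have e2 : 0 ≤ (b : ℚ) * s * z ^ 2 := by positivity
    have e3 : (a : ℚ) * s * y ^ 2 = 0 := by linarith
    have e4 : (b : ℚ) * s * z ^ 2 = 0 := by linarith
    have hy : y = 0 := by
      have := (mul_eq_zero.1 e3).resolve_left (mul_pos ha' hs').ne'
      exact pow_eq_zero_iff (two_ne_zero) |>.1 this
    have hz : z = 0 := by
      have := (mul_eq_zero.1 e4).resolve_left (mul_pos hb' hs').ne'
      exact pow_eq_zero_iff (two_ne_zero) |>.1 this
    rcases h1 with h | h | h
    · exact h rfl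
    · exact h hy
    · exact h hz
  refine ⟨s * y / x, s * z / x, ?_⟩
  have e : (a : ℚ) * (s * y / x) ^ 2 + b * (s * z / x) ^ 2
      = s * (a * s * y ^ 2 + b * s * z ^ 2) / x ^ 2 := by
    field_simp
  rw [e, ← h2]
  field_simp

end Pool.Agent.HM4
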