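import Mathlib
import Pool.Agent.Lib.HM4.ClM

/-!
Units with a given class.
-/

set_option autoImplicit false

namespace Pool.Agent.HM4

open Classical in
/-- For every target `(e, f)` there is an odd residue mod 8 with this class at 2. -/
theorem exists_unit_two (e f : ZMod 2) :
    ∃ r : ℕ, r < 8 ∧ r % 2 = 1 ∧ ∀ a : ℤ, a % 8 = r → cl 2 a = (0, e, f) := by
  have h01 : ∀ a : ZMod 2, a = 0 ∨ a = 1 := by decide
  rcases h01 e with rfl | rfl <;> rcases h01 f with rfl | rfl
  · refine ⟨1, by norm_num, by norm_num, fun a ha => ?_⟩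
    rw [cl_two_of_odd (by omega), if_pos (by omega), if_pos (by omega)]
  · refine ⟨5, by norm_num, by norm_num, fun a ha => ?_⟩
    rw [cl_two_of_odd (by omega), if_pos (by omega), if_neg (by omega)]
  · refine ⟨7, by norm_num, by norm_num, fun a ha => ?_⟩
    rw [cl_two_of_odd (by omega), if_neg (by omega), if_pos (by omega)]
  · refine ⟨3, by norm_num, by norm_num, fun a ha => ?_⟩
    rw [cl_two_of_odd (by omega), if_neg (by omega), if_neg (by omega)]

theorem exists_unit_odd {p : ℕ} (hp : p.Prime) (h2 : p ≠ 2) (e : ZMod 2) :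
    ∃ r : ℕ, ¬ p ∣ r ∧ ∀ a : ℤ, (p : ℤ) ∣ a - r → cl p a = (0, e, 0) := by
  classical
  have hfp : Fact p.Prime := ⟨hp⟩
  have key : ∀ (r : ℕ) (a : ℤ), ¬ p ∣ r → (p : ℤ) ∣ a - r →
      ¬ (p : ℤ) ∣ a ∧ ((a : ℤ) : ZMod p) = (r : ZMod p) := by
    intro r a hr ha
    constructor
    · intro h
      apply hr
      have h3 : (p : ℤ) ∣ a - (a - r) := dvd_sub h ha
      rw [sub_sub_cancel] at h3
      exact Int.natCast_dvd_natCast.1 h3
    · rw [← ZMod.intCast_zmod_eq_zero_iff_dvd] at ha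
      push_cast at ha
      exact sub_eq_zero.1 ha
  have h01 : ∀ a : ZMod 2, a = 0 ∨ a = 1 := by decide
  rcases h01 e with rfl | rfl
  · refine ⟨1, hp.one_lt.ne' ∘ Nat.dvd_one.1, fun a ha => ?_⟩
    obtain ⟨h1, h3⟩ := key 1 a (hp.one_lt.ne' ∘ Nat.dvd_one.1) ha
    rw [cl_of_not_dvd hp h2 h1, h3, if_pos]
    exact ⟨1, by simp⟩
  · obtain ⟨x, hx⟩ := FiniteField.exists_nonsquare (F := ZMod p)
      (by rw [ZMod.ringChar_zmod_n]; exact h2)
    have hx0 : x ≠ 0 := by
      rintro rfl
      exact hx ⟨0, by simp⟩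
    have hr : ¬ p ∣ x.val := by
      intro h
      rw [← ZMod.natCast_eq_zero_iff, ZMod.natCast_zmod_val] at h
      exact hx0 h
    refine ⟨x.val, hr, fun a ha => ?_⟩
    obtain ⟨h1, h3⟩ := key x.val a hr ha
    rw [ZMod.natCast_zmod_val] at h3
    rw [cl_of_not_dvd hp h2 h1, h3, if_neg hx]

/-- A prime in prescribed unit classes, by the Chinese remainder theorem and Dirichlet. -/
theorem exists_prime_class (P : Finset ℕ) (hP : ∀ p ∈ P, p.Prime) (g : ℕ → Cl)
    (hg : ∀ p ∈ P, (g p).1 = 0 ∧ (p ≠ 2 → (g p).2.2 = 0)) :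
    ∃ q : ℕ, q.Prime ∧ q ∉ P ∧ ∀ p ∈ P, cl p (q : ℤ) = g p := by
  classical
  set m : ℕ → ℕ := fun p => if p = 2 then 8 else p with hm
  have hex : ∀ p : ℕ, ∃ r : ℕ, p ∈ P → (r.Coprime (m p) ∧
      ∀ a : ℕ, a ≡ r [MOD m p] → cl p (a : ℤ) = g p) := by
    intro p
    by_cases hpP : p ∈ P
    · by_cases h2 : p = 2
      · subst h2
        obtain ⟨r, hr8, hr2, hr⟩ := exists_unit_two (g 2).2.1 (g 2).2.2
        refine ⟨r, fun _ => ⟨?_, fun a ha => ?_⟩⟩
        · change r.Coprime (if 2 = 2 then 8 else 2)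
          rw [if_pos rfl]
          have : (8 : ℕ) = 2 ^ 3 := by norm_num
          rw [this]
          apply Nat.Coprime.pow_right
          rw [Nat.coprime_comm, Nat.Prime.coprime_iff_not_dvd Nat.prime_two]
          omega
        · rw [hr a ?_, ← (hg 2 hpP).1]
          have hm2 : m 2 = 8 := by simp [hm]
          rw [hm2] at ha
          have : a % 8 = r % 8 := ha
          omega
      · obtain ⟨r, hr1, hr⟩ := exists_unit_odd (hP p hpP) h2 (g p).2.1
        have hmp : m p = p := by simp [hm, h2]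
        refine ⟨r, fun _ => ⟨?_, fun a ha => ?_⟩⟩
        · rw [hmp, Nat.coprime_comm, Nat.Prime.coprime_iff_not_dvd (hP p hpP)]
          exact hr1
        · rw [hr a ?_]
          · have h1 := (hg p hpP).1
            have h3 := (hg p hpP).2 h2
            exact Prod.ext h1.symm (Prod.ext rfl h3.symm)
          · rw [hmp] at ha
            have := (Nat.modEq_iff_dvd.1 ha.symm)
            exact this
    · exact ⟨0, fun h => absurd h hpP⟩
  choose r hr using hex
  have hm0 : ∀ p ∈ P, m p ≠ 0 := by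
    intro p hp
    by_cases h2 : p = 2
    · simp [hm, h2]
    · simp only [hm, h2, if_false]
      exact (hP p hp).ne_zero
  have hcop : ∀ p ∈ P, ∀ q ∈ P, p ≠ q → Nat.Coprime (m p) (m q) := by
    intro p hp q hq hpq
    have h0 := (Nat.coprime_primes (hP p hp) (hP q hq)).2 hpq
    by_cases h2 : p = 2
    · have hq2 : q ≠ 2 := fun h => hpq (h2.trans h.symm)
      subst h2
      have e1 : m 2 = 2 ^ 3 := by simp [hm]
      have e2 : m q = q := by simp [hm, hq2]
      rw [e1, e2]
      exact Nat.Coprime.pow_left 3 h0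
    · have e1 : m p = p := by simp [hm, h2]
      by_cases hq2 : q = 2
      · subst hq2
        have e2 : m 2 = 2 ^ 3 := by simp [hm]
        rw [e1, e2]
        exact Nat.Coprime.pow_right 3 h0
      · have e2 : m q = q := by simp [hm, hq2]
        rw [e1, e2]
        exact h0
  obtain ⟨k, hk⟩ := Nat.chineseRemainderOfFinset r m P hm0 (fun p hp q hq hpq =>
    hcop p hp q hq hpq)
  have hkM : k.Coprime (∏ p ∈ P, m p) := by
    refine Nat.Coprime.prod_right fun p hp => ?_
    have h1 := hk p hp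
    have h3 := (hr p hp).1
    rw [Nat.Coprime] at h3 ⊢
    rw [← h3]
    exact h1.gcd_eq
  obtain ⟨q, hq1, hq2, hq3⟩ := Nat.forall_exists_prime_gt_and_modEq (P.sup id)
    (Finset.prod_ne_zero_iff.2 hm0) hkM
  refine ⟨q, hq2, ?_, fun p hp => ?_⟩
  · intro h
    have : q ≤ P.sup id := Finset.le_sup (f := id) h
    omega
  · apply (hr p hp).2
    exact (hq3.of_dvd (Finset.dvd_prod_of_mem m hp)).trans (hk p hp)

end Pool.Agent.HM4
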