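import Mathlib
import Pool.Agent.Lib.HM4.SelA

/-!
A positive integer in prescribed classes with one further prime factor.
-/

set_option autoImplicit false

namespace Pool.Agent.HM4

private theorem fst_of_not_dvd {p : ℕ} (hp : p.Prime) {a : ℤ} (ha : ¬ (p : ℤ) ∣ a) :
    (cl p a).1 = 0 := by
  by_cases h2 : p = 2
  · subst h2
    have : a % 2 = 1 := by
      have h := Int.emod_two_eq_zero_or_one a
      rcases h with h | h
      · exact absurd (Int.dvd_of_emod_eq_zero h) (by exact_mod_cast ha)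
      · exact h
    rw [cl_two_of_odd this]
  · rw [cl_of_not_dvd hp h2 ha]

private theorem zmod_two_val (x : ZMod 2) : x.val • (1 : ZMod 2) = x := by
  rw [nsmul_eq_mul, mul_one]
  exact ZMod.natCast_zmod_val x

theorem select (P : Finset ℕ) (hP : ∀ p ∈ P, p.Prime) (g : ℕ → Cl)
    (hg : ∀ p ∈ P, p ≠ 2 → (g p).2.2 = 0) :
    ∃ s : ℤ, ∃ q : ℕ, 0 < s ∧ q.Prime ∧ q ∉ P ∧ (∀ p ∈ P, cl p s = g p) ∧
      ∀ p : ℕ, p.Prime → p ∉ P → p ≠ q → ¬ (p : ℤ) ∣ s := by
  classical
  set n : ℕ → ℕ := fun p => (g p).1.val with hn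
  set s0 : ℤ := ∏ l ∈ P, ((l : ℤ) ^ n l) with hs0
  have hlne : ∀ l ∈ P, ((l : ℤ) ^ n l) ≠ 0 := fun l hl =>
    pow_ne_zero _ (by exact_mod_cast (hP l hl).ne_zero)
  have hs0pos : 0 < s0 := Finset.prod_pos fun l hl =>
    pow_pos (by exact_mod_cast (hP l hl).pos) _
  have hcl0 : ∀ p ∈ P, (cl p s0).1 = (g p).1 := by
    intro p hp
    have h1 : cl p s0 = ∑ l ∈ P, n l • cl p (l : ℤ) := by
      rw [hs0, cl_prod (hP p hp) P _ hlne]
      refine Finset.sum_congr rfl fun l hl => ?_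
      exact cl_pow (hP p hp) (by exact_mod_cast (hP l hl).ne_zero) _
    rw [h1, Prod.fst_sum, Finset.sum_eq_single p]
    · rw [cl_self (hP p hp)]
      simp only [Prod.smul_mk]
      exact zmod_two_val _
    · intro l hl hlp
      have hnd : ¬ (p : ℤ) ∣ (l : ℤ) := by
        intro h
        have h' : p ∣ l := by exact_mod_cast h
        exact hlp ((Nat.prime_dvd_prime_iff_eq (hP p hp) (hP l hl)).1 h').symm
      rw [Prod.smul_fst, fst_of_not_dvd (hP p hp) hnd, smul_zero]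
    · intro h
      exact absurd hp h
  obtain ⟨q, hq, hqP, hqc⟩ := exists_prime_class P hP (fun p => g p + cl p s0) (by
    intro p hp
    refine ⟨?_, fun h2 => ?_⟩
    · show (g p).1 + (cl p s0).1 = 0
      rw [hcl0 p hp]
      exact CharTwo.add_self_eq_zero _
    · show (g p).2.2 + (cl p s0).2.2 = 0
      rw [hg p hp h2, cl_snd_snd h2, add_zero])
  have hq0 : (q : ℤ) ≠ 0 := by exact_mod_cast hq.ne_zero
  refine ⟨s0 * q, q, mul_pos hs0pos (by exact_mod_cast hq.pos), hq, hqP, ?_, ?_⟩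
  · intro p hp
    rw [cl_mul (hP p hp) hs0pos.ne' hq0, hqc p hp]
    have h2 : cl p s0 + cl p s0 = 0 := by
      ext
      · exact CharTwo.add_self_eq_zero _
      · exact CharTwo.add_self_eq_zero _
      · exact CharTwo.add_self_eq_zero _
    rw [add_comm (g p), ← add_assoc, h2, zero_add]
  · intro p hp hpP hpq hdvd
    have hpp : Prime (p : ℤ) := Nat.prime_iff_prime_int.1 hp
    rcases hpp.dvd_or_dvd hdvd with h | h
    · obtain ⟨l, hl, hdl⟩ := hpp.exists_mem_finset_dvd h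
      have h3 : (p : ℤ) ∣ (l : ℤ) := hpp.dvd_of_dvd_pow hdl
      have h4 : p ∣ l := by exact_mod_cast h3
      have h5 := (Nat.prime_dvd_prime_iff_eq hp (hP l hl)).1 h4
      exact hpP (h5 ▸ hl)
    · have h4 : p ∣ q := by exact_mod_cast h
      exact hpq ((Nat.prime_dvd_prime_iff_eq hp hq).1 h4)

end Pool.Agent.HM4
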