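import Mathlib
import Pool.Agent.Lib.HM4.Prod
import Pool.Agent.Lib.HM4.Rep
import Pool.Agent.Lib.HM4.Loc
import Pool.Agent.Lib.HM4.Sel

/-!
Positive quaternary forms over the rationals are universal.
-/

set_option autoImplicit false

namespace Pool.Agent.HM4

theorem quat_int {a b c d : ℤ} (ha : 0 < a) (hb : 0 < b) (hc : 0 < c) (hd : 0 < d) :
    ∃ x y z w : ℚ, a * x ^ 2 + b * y ^ 2 + c * z ^ 2 + d * w ^ 2 = 1 := by
  classical
  set P : Finset ℕ := (2 * (a * b * c * d)).natAbs.primeFactors with hPdef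
  have habcd : (2 * (a * b * c * d)) ≠ 0 := by positivity
  have hP : ∀ p ∈ P, p.Prime := fun p hp => Nat.prime_of_mem_primeFactors hp
  have hmem : ∀ p : ℕ, p.Prime → (p : ℤ) ∣ 2 * (a * b * c * d) → p ∈ P := by
    intro p hp h
    rw [hPdef, Nat.mem_primeFactors]
    exact ⟨hp, Int.natCast_dvd.mp h, Int.natAbs_ne_zero.mpr habcd⟩
  have h2 : 2 ∈ P := hmem 2 Nat.prime_two ⟨a * b * c * d, by push_cast; ring⟩
  have hna : ∀ p : ℕ, p.Prime → p ∉ P → ¬ (p : ℤ) ∣ a := fun p hp h h' =>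
    h (hmem p hp (h'.trans ⟨2 * (b * c * d), by ring⟩))
  have hnb : ∀ p : ℕ, p.Prime → p ∉ P → ¬ (p : ℤ) ∣ b := fun p hp h h' =>
    h (hmem p hp (h'.trans ⟨2 * (a * c * d), by ring⟩))
  have hnc : ∀ p : ℕ, p.Prime → p ∉ P → ¬ (p : ℤ) ∣ c := fun p hp h h' =>
    h (hmem p hp (h'.trans ⟨2 * (a * b * d), by ring⟩))
  have hnd : ∀ p : ℕ, p.Prime → p ∉ P → ¬ (p : ℤ) ∣ d := fun p hp h h' =>
    h (hmem p hp (h'.trans ⟨2 * (a * b * c), by ring⟩))
  have hnab : ∀ p : ℕ, p.Prime → p ∉ P → ¬ (p : ℤ) ∣ -(a * b) := by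
    intro p hp h h'
    rcases (Nat.prime_iff_prime_int.mp hp).dvd_or_dvd ((dvd_neg (α := ℤ)).mp h') with h | h
    · exact hna p hp ‹_› h
    · exact hnb p hp ‹_› h
  have hncd : ∀ p : ℕ, p.Prime → p ∉ P → ¬ (p : ℤ) ∣ -(c * d) := by
    intro p hp h h'
    rcases (Nat.prime_iff_prime_int.mp hp).dvd_or_dvd ((dvd_neg (α := ℤ)).mp h') with h | h
    · exact hnc p hp ‹_› h
    · exact hnd p hp ‹_› h
  have hne2 : ∀ p : ℕ, p ∉ P → p ≠ 2 := fun p hp h => hp (h ▸ h2)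
  have hloc : ∀ p : ℕ, ∃ s u : Cl, p.Prime → ((p ≠ 2 → s.2.2 = 0 ∧ u.2.2 = 0) ∧
      bf p s (cl p (-(a * b))) = hs p a b ∧
      bf p u (cl p (-(c * d))) = hs p c d ∧ bf p s u = 0) := by
    intro p
    by_cases hp : p.Prime
    · obtain ⟨s, u, h⟩ := loc hp ha.ne' hb.ne' hc.ne' hd.ne'
      exact ⟨s, u, fun _ => h⟩
    · exact ⟨0, 0, fun h => absurd h hp⟩
  choose gs gu hg using hloc
  obtain ⟨s, q₁, hs0, hq₁, hq₁P, hsP, hsn⟩ := select P hP gs
    (fun p hp h => ((hg p (hP p hp)).1 h).1)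
  obtain ⟨u, q₂, hu0, hq₂, hq₂P, huP, hun⟩ := select (insert q₁ P)
    (by intro p hp
        rcases Finset.mem_insert.mp hp with h | h
        · rw [h]; exact hq₁
        · exact hP p h)
    (fun p => if p = q₁ then 0 else gu p)
    (by intro p hp h
        by_cases hpq : p = q₁
        · simp [hpq]
        · simp only [if_neg hpq]
          rcases Finset.mem_insert.mp hp with h' | h'
          · exact absurd h' hpq
          · exact ((hg p (hP p h')).1 h).2)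
  have hq₁₂ : q₁ ≠ q₂ := fun h => hq₂P (h ▸ Finset.mem_insert_self _ _)
  have hq₂P' : q₂ ∉ P := fun h => hq₂P (Finset.mem_insert_of_mem h)
  have hu1 : cl q₁ u = 0 := by
    have := huP q₁ (Finset.mem_insert_self _ _)
    simpa using this
  have huP' : ∀ p ∈ P, cl p u = gu p := by
    intro p hp
    have := huP p (Finset.mem_insert_of_mem hp)
    have hpq : p ≠ q₁ := fun h => hq₁P (h ▸ hp)
    simpa [hpq] using this
  have hun' : ∀ p : ℕ, p.Prime → p ∉ P → p ≠ q₁ → p ≠ q₂ → ¬ (p : ℤ) ∣ u := by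
    intro p hp h1 h2' h3
    exact hun p hp (by simp [h1, h2']) h3
  have hab0 : -(a * b) ≠ 0 := by
    have := mul_pos ha hb
    omega
  have hcd0 : -(c * d) ≠ 0 := by
    have := mul_pos hc hd
    omega
  -- symbols of s
  have hS : ∀ p : ℕ, p.Prime → p ≠ q₁ → hs p s (-(a * b)) = hs p a b := by
    intro p hp hpq
    by_cases hpP : p ∈ P
    · have := (hg p hp).2.1
      rw [← this]
      unfold hs
      rw [hsP p hpP]
    · rw [hs_unit hp (hne2 p hpP) (hsn p hp hpP hpq) (hnab p hp hpP),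
        hs_unit hp (hne2 p hpP) (hna p hp hpP) (hnb p hp hpP)]
  have hS' : ∀ p : ℕ, p.Prime → hs p s (-(a * b)) = hs p a b := by
    intro p hp
    by_cases hpq : p = q₁
    · rw [hpq]
      exact hs_eq_of_others hq₁ hs0 hab0 ha hb.ne' hS
    · exact hS p hp hpq
  -- symbols of u
  have hU : ∀ p : ℕ, p.Prime → p ≠ q₂ → hs p u (-(c * d)) = hs p c d := by
    intro p hp hpq
    by_cases hpP : p ∈ P
    · have := (hg p hp).2.2.1
      rw [← this]
      unfold hs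
      rw [huP' p hpP]
    · by_cases hp1 : p = q₁
      · rw [hs_unit hp (hne2 p hpP) (hnc p hp hpP) (hnd p hp hpP)]
        unfold hs
        rw [hp1, hu1, bf_zero_left]
      · rw [hs_unit hp (hne2 p hpP) (hun' p hp hpP hp1 hpq) (hncd p hp hpP),
          hs_unit hp (hne2 p hpP) (hnc p hp hpP) (hnd p hp hpP)]
  have hU' : ∀ p : ℕ, p.Prime → hs p u (-(c * d)) = hs p c d := by
    intro p hp
    by_cases hpq : p = q₂
    · rw [hpq]
      exact hs_eq_of_others hq₂ hu0 hcd0 hc hd.ne' hU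
    · exact hU p hp hpq
  -- symbols of (s, u)
  have hSU : ∀ p : ℕ, p.Prime → p ≠ q₂ → hs p s u = 0 := by
    intro p hp hpq
    by_cases hpP : p ∈ P
    · have := (hg p hp).2.2.2
      unfold hs
      rw [hsP p hpP, huP' p hpP, this]
    · by_cases hp1 : p = q₁
      · unfold hs
        rw [hp1, hu1, bf_zero_right]
      · exact hs_unit hp (hne2 p hpP) (hsn p hp hpP hp1) (hun' p hp hpP hp1 hpq)
  have hSU' : ∀ p : ℕ, p.Prime → hs p s u = 0 := by
    intro p hp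
    by_cases hpq : p = q₂
    · rw [hpq]
      have := hs_eq_of_others hq₂ hs0 hu0.ne' (a' := 1) (b' := 1) one_pos one_ne_zero
        (fun p hp hpq => by rw [hSU p hp hpq, hs_one_left hp])
      rw [this, hs_one_left hq₂]
    · exact hSU p hp hpq
  obtain ⟨x, y, hxy⟩ := rep_of_hs ha hb hs0 (fun p hp _ => hS' p hp)
  obtain ⟨z, w, hzw⟩ := rep_of_hs hc hd hu0 (fun p hp _ => hU' p hp)
  obtain ⟨X, Y, hXY⟩ := rep_of_hs hs0 hu0 (s := 1) one_pos
    (fun p hp _ => by rw [hSU' p hp, hs_one_left hp])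
  refine ⟨x * X, y * X, z * Y, w * Y, ?_⟩
  have h1 : (s : ℚ) * X ^ 2 + u * Y ^ 2 = 1 := by simpa using hXY
  calc (a : ℚ) * (x * X) ^ 2 + b * (y * X) ^ 2 + c * (z * Y) ^ 2 + d * (w * Y) ^ 2
      = (a * x ^ 2 + b * y ^ 2) * X ^ 2 + (c * z ^ 2 + d * w ^ 2) * Y ^ 2 := by ring
    _ = 1 := by rw [hxy, hzw, h1]

/-- Positive definite rational quaternary forms represent every positive rational. -/
theorem hm4 (a b c d t : ℚ) (ha : 0 < a) (hb : 0 < b) (hc : 0 < c) (hd : 0 < d) (ht : 0 < t) :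
    ∃ x y z w : ℚ, a * x ^ 2 + b * y ^ 2 + c * z ^ 2 + d * w ^ 2 = t := by
  have key : ∀ r : ℚ, 0 < r → ∃ (n : ℤ) (m : ℚ), 0 < n ∧ m ≠ 0 ∧ r / t = n * m ^ 2 := by
    intro r hr
    have hrt : 0 < r / t := div_pos hr ht
    refine ⟨(r / t).num * (r / t).den, 1 / (r / t).den, ?_, ?_, ?_⟩
    · have h1 : 0 < (r / t).num := Rat.num_pos.mpr hrt
      have h2 : (0 : ℤ) < (r / t).den := by exact_mod_cast (r / t).pos
      exact mul_pos h1 h2
    · have : ((r / t).den : ℚ) ≠ 0 := by exact_mod_cast (r / t).den_nz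
      exact one_div_ne_zero this
    · have h3 : ((r / t).den : ℚ) ≠ 0 := by exact_mod_cast (r / t).den_nz
      have h4 : r / t = (r / t).num / (r / t).den := (Rat.num_div_den _).symm
      push_cast
      calc r / t = (r / t).num / (r / t).den := h4
        _ = _ := by field_simp
  obtain ⟨a', ma, ha', hma, hae⟩ := key a ha
  obtain ⟨b', mb, hb', hmb, hbe⟩ := key b hb
  obtain ⟨c', mc, hc', hmc, hce⟩ := key c hc
  obtain ⟨d', md, hd', hmd, hde⟩ := key d hd
  obtain ⟨x, y, z, w, h⟩ := quat_int ha' hb' hc' hd'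
  refine ⟨x / ma, y / mb, z / mc, w / md, ?_⟩
  have ea : a = t * (a' * ma ^ 2) := by rw [← hae]; field_simp
  have eb : b = t * (b' * mb ^ 2) := by rw [← hbe]; field_simp
  have ec : c = t * (c' * mc ^ 2) := by rw [← hce]; field_simp
  have ed : d = t * (d' * md ^ 2) := by rw [← hde]; field_simp
  rw [ea, eb, ec, ed]
  have e1 : t * (a' * ma ^ 2) * (x / ma) ^ 2 = t * (a' * x ^ 2) := by field_simp
  have e2 : t * (b' * mb ^ 2) * (y / mb) ^ 2 = t * (b' * y ^ 2) := by field_simp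
  have e3 : t * (c' * mc ^ 2) * (z / mc) ^ 2 = t * (c' * z ^ 2) := by field_simp
  have e4 : t * (d' * md ^ 2) * (w / md) ^ 2 = t * (d' * w ^ 2) := by field_simp
  rw [e1, e2, e3, e4]
  calc t * (a' * x ^ 2) + t * (b' * y ^ 2) + t * (c' * z ^ 2) + t * (d' * w ^ 2)
      = t * (a' * x ^ 2 + b' * y ^ 2 + c' * z ^ 2 + d' * w ^ 2) := by ring
    _ = t := by rw [h, mul_one]

end Pool.Agent.HM4
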